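import Pool.Agent.Work.MP_71af4b_pr.Final

set_option autoImplicit false

open MeasureTheory ProbabilityTheory

namespace Pool.Agent.Results.MP_71af4b_pr.ShiftInvariance

open Pool.Agent.Work.MP_71af4b_pr

/-- From the ordering of the rectangles to inequalities between their parameters. -/
lemma rect_le {A A' : ℤ} {B C B' C' : ℕ} (hB : 1 ≤ B) (hC : 1 ≤ C) (hB' : 1 ≤ B') (hC' : 1 ≤ C')
    (h : RectLE (rect A B C) (rect A' B' C')) :
    A ≤ A' ∧ A' - C' ≤ A - C ∧ A' + B' ≤ A + B := by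
  obtain ⟨h1, h2⟩ := h
  have fst : ∀ x : ℤ, 1 + A' ≤ x → x ≤ B' + A' → 1 + A ≤ x ∧ x ≤ B + A := by
    intro x hx1 hx2
    have hx : x ∈ Prod.fst '' rect A' B' C' :=
      ⟨(x, 1 - A'), ⟨⟨hx1, hx2⟩, ⟨le_rfl, by show (1 : ℤ) - A' ≤ C' - A'; omega⟩⟩, rfl⟩
    obtain ⟨p, hp, hpx⟩ := h1 hx
    have := hp.1
    rw [hpx] at this
    exact this
  have snd : ∀ x : ℤ, 1 - A ≤ x → x ≤ C - A → 1 - A' ≤ x ∧ x ≤ C' - A' := by
    intro x hx1 hx2
    have hx : x ∈ Prod.snd '' rect A B C :=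
      ⟨(1 + A, x), ⟨⟨le_rfl, by show (1 : ℤ) + A ≤ B + A; omega⟩, ⟨hx1, hx2⟩⟩, rfl⟩
    obtain ⟨p, hp, hpx⟩ := h2 hx
    have := hp.2
    rw [hpx] at this
    exact this
  have f1 := fst (1 + A') le_rfl (by omega)
  have f2 := fst (B' + A') (by omega) le_rfl
  have s2 := snd (C - A) (by omega) le_rfl
  refine ⟨by omega, by omega, by omega⟩

/-- Shift-invariance of the passage times of the colored TASEP under cross-ordering only.

`gap x k` are the waiting times of the Poisson clock of the edge `(x, x+1)` (independent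
exponential variables of rate `1`), `ζ` is the colored TASEP driven by these clocks, and the
indices `i` with `i.val < ι` (resp. `ι ≤ i.val`) are those called `i ≤ ι` (resp. `i > ι`) in the
problem. -/
theorem result {Ω : Type*} [MeasurableSpace Ω] (P : Measure Ω) [IsProbabilityMeasure P]
    (gap : ℤ → ℕ → Ω → ℝ) (hmeas : ∀ x k, Measurable (gap x k))
    (hindep : iIndepFun (fun p : ℤ × ℕ => gap p.1 p.2) P)
    (hexp : ∀ x k, P.map (gap x k) = expMeasure 1)
    (ζ : Ω → ℝ → ℤ → ℤ) (hζ : ∀ᵐ ω ∂P, IsColoredTASEP (fun x k => gap x k ω) (ζ ω))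
    (g ι : ℕ) (hι : 1 ≤ ι) (hιg : ι < g)
    (A : Fin g → ℤ) (B C : Fin g → ℕ) (hB : ∀ i, 1 ≤ B i) (hC : ∀ i, 1 ≤ C i)
    (hord : ∀ i i' : Fin g, i.val < ι → ι ≤ i'.val →
      RectLE (rect (A i) (B i) (C i)) (rect (A i') (B i') (C i')))
    (hord' : ∀ i i' : Fin g, i.val < ι → ι ≤ i'.val →
      RectLE (rect (A i + if ι ≤ i.val then 1 else 0) (B i) (C i))
        (rect (A i' + if ι ≤ i'.val then 1 else 0) (B i') (C i'))) :
    IdentDistrib (fun ω => fun i : Fin g => passageTime (ζ ω) (A i) (B i) (C i))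
      (fun ω => fun i : Fin g => passageTime (ζ ω) (A i + if ι ≤ i.val then 1 else 0) (B i) (C i))
      P P := by
  refine shift_law hmeas hindep hexp hζ (fun i : Fin g => i.val < ι) ⟨⟨0, by omega⟩, by
    show 0 < ι; omega⟩ ⟨⟨ι, hιg⟩, by show ¬ ι < ι; omega⟩ A _ B C hB hC ?_ ?_ ?_
  · intro i hi
    have : ¬ ι ≤ i.val := not_le.mpr hi
    rw [if_neg this, add_zero]
  · intro i hi
    have : ι ≤ i.val := not_lt.mp hi
    rw [if_pos this]
  · intro i j hi hj
    have hj' : ι ≤ j.val := not_lt.mp hj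
    have hi' : ¬ ι ≤ i.val := not_le.mpr hi
    have h0 := rect_le (hB i) (hC i) (hB j) (hC j) (hord i j hi hj')
    have h1 := rect_le (hB i) (hC i) (hB j) (hC j) (hord' i j hi hj')
    rw [if_neg hi', if_pos hj'] at h1
    refine ⟨h0.1, by omega, by omega⟩

end Pool.Agent.Results.MP_71af4b_pr.ShiftInvariance
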